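import Pool.Agent.T2h77V.Fin2
import Pool.Agent.T2h77V.Box
import Pool.Agent.T2h77V.Fac
import Pool.Agent.T2h77V.Pts
import Pool.Agent.T2h77V.Cnt
import Pool.Agent.T2h77V.IDL
import Pool.Agent.T2h77V.RED
import Pool.Agent.T2h77V.VOL
import Pool.Agent.T2h77.Div
import Pool.Agent.T2h77.Cnt4
import Pool.Agent.T2h77.Red
import Pool.Agent.T2h77.Vol

/-!
# The density theorem for `SL₂` over a number field, at all infinite places and all small primes at once

Let `K` be a number field with the ring of integers `𝓞`, `Γ₀` a congruence subgroup of `SL₂(𝓞)` of index `n`, and,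
for the primes `P` of norm at most `X`, `Γ P` a congruence subgroup of `SL₂(𝓞[1/P])` with `Γ P ∩ SL₂(𝓞) = Γ₀`
(it exists for all `P` prime to the level, and is unique). Let `f_i` be linearly independent square integrable
automorphic functions for `Γ₀` on `SL₂(K ⊗ ℝ)`, spherical at all infinite places, with parameters bounded by `L`.
Suppose that each `f_i` has the real parameter `s_i ≥ ε` at SOME place `v_i`, an infinite place or a prime `P` of
norm `q ≤ X` (Satake parameters `q ^ s_i`, `q ^ (-s_i)`), so that it does not satisfy the Ramanujan conjecture at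
`v_i`. Then `∑ n ^ (2 s_i) ≤ C X ^ A n ^ (1 + ε)`, where `A` depends on `K` only and `C` on `K`, `ε` and `L` only.

So all but `C n ^ (1 - 2 s + A η + ε)` of the forms satisfy the Ramanujan conjecture up to `s` at all infinite
places and all primes of norm at most `n ^ η` at once.
-/

set_option autoImplicit false

open NumberField MeasureTheory
open scoped MatrixGroups

namespace Pool.Agent.Results.MP_8410ab_nt.AllPlacesNumberField

open Pool.Agent.T2h77 Pool.Agent.T2h77V

theorem result (K : Type) [Field K] [NumberField K] :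
    ∃ A : ℕ, ∀ (ε L : ℝ), 0 < ε → ∃ C : ℝ, 0 < C ∧
      ∀ (Γ₀ : Subgroup SL(2, 𝓞 K)), IsCongr Γ₀ → ∀ (𝓕 : Set (GG K)), IsFD Γ₀ 𝓕 → ∀ X : ℝ, 1 ≤ X →
      ∀ (Γ : Ideal (𝓞 K) → Subgroup SL(2, K)) (k : ℕ) (ν : Fin k → InfinitePlace K → ℂ) (s : Fin k → ℝ)
        (f : Fin k → GG K → ℂ),
        (∀ i, IsAutomorphic Γ₀ (ν i) (f i) ∧ IsL2 𝓕 (f i) ∧ HasRealParameter X Γ₀ Γ (ν i) (s i) (f i)) →
        (∀ i w, ‖ν i w‖ ≤ L) → (∀ i, ε ≤ s i ∧ s i ≤ 1 / 2) → LinearIndependent ℂ f →
        ∑ i, (Γ₀.index : ℝ) ^ (2 * s i) ≤ C * X ^ A * (Γ₀.index : ℝ) ^ (1 + ε) :=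
  allPlaces sdiv K (density_of unimod vol xi red count K)
    (udensityP_of unimod (ured uideal) uvol (ucount (upoints ubox (ufac sdiv))) K)

end Pool.Agent.Results.MP_8410ab_nt.AllPlacesNumberField
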