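import Pool.Agent.T2h74.TY5
import Pool.Agent.T2h77.DefsB
import Pool.Agent.T2h77.FD
import Pool.Agent.T2h77.Points2
import Pool.Agent.T2h77.Div
import Pool.Agent.T2h77.Red
import Pool.Agent.T2h77.Vol

/-!
# The density theorem at the finite places, for automorphic forms of arbitrary weight on `SL₂`

Let `K` be a number field, `𝔭` a nonzero prime ideal of its ring of integers `𝓞`, of norm `q`. Let `Γ` run over
all congruence subgroups of `SL₂(𝓞[1/𝔭])`, let `n` be the index of `Γ₀ = Γ ∩ SL₂(𝓞)` in `SL₂(𝓞)`, and let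
`f_i` be linearly independent square integrable automorphic functions for `Γ₀` on `SL₂(K ⊗ ℝ)`, of weights
`N_i, σ_i` and with parameters `ν_i` at the infinite places, bounded by `L`, and eigenfunctions of the Hecke
operators at `𝔭`, with the Satake parameters `q ^ τ_i`, `q ^ (-τ_i)`, `τ_i` real and at least `ε` (so that the
local component at `𝔭` is not tempered). Then `∑ n ^ (2 τ_i) ≤ C n ^ (1 + ε)`, where `C` depends on `K`, `𝔭`, `ε`
and `L` only. In particular, the number of the `f_i` with `τ_i ≥ s` is at most `C n ^ (1 - 2 s + ε)`.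

The forms which contribute to the cohomology with complex coefficients (weight two) have `N_w = 2` at all
infinite places `w`, `ν_w = - 1 / 2` if `w` is real (holomorphic or antiholomorphic, according to the sign `σ_w`)
and `ν_w = 0` if `w` is complex.
-/

set_option autoImplicit false

open NumberField MeasureTheory
open scoped MatrixGroups

namespace Pool.Agent.T2h77V.Kept.DensityAllWeights

open Pool.Agent.T2h77 Pool.Agent.T2h74

theorem result (K : Type) [Field K] [NumberField K] (𝔭 : Ideal (𝓞 K)) (h𝔭 : 𝔭.IsPrime) (h𝔭0 : 𝔭 ≠ ⊥)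
    (ε : ℝ) (L : ℕ) (hε : 0 < ε) :
    ∃ C : ℝ, 0 < C ∧ ∀ Γ : Subgroup SL(2, K), IsCongrP 𝔭 Γ → ∀ 𝓕 : Set (GG K), IsFD (ic Γ) 𝓕 →
      ∀ (k : ℕ) (N : Fin k → InfinitePlace K → ℕ) (σ : Fin k → InfinitePlace K → ℤˣ)
        (ν : Fin k → InfinitePlace K → ℂ) (τ : Fin k → ℝ) (f : Fin k → GG K → ℂ),
        (∀ i, Continuous (f i) ∧ (∀ γ ∈ ic Γ, ∀ g, f i (lm γ g) = f i g) ∧
          HasType (N i) (σ i) (ν i) (f i) ∧ IsL2 𝓕 (f i) ∧ IsHeckeEigen 𝔭 Γ (τ i) (f i)) →
        (∀ i w, N i w ≤ L ∧ ‖ν i w‖ ≤ L) → (∀ i, ε ≤ τ i ∧ τ i ≤ 1 / 2) → LinearIndependent ℂ f →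
        ∑ i, ((ic Γ).index : ℝ) ^ (2 * τ i) ≤ C * ((ic Γ).index : ℝ) ^ (1 + ε) := by
  obtain ⟨C, hC, h⟩ := densityT_of unimod red (count2 (points2 box2 (fac2 sdiv))) K 𝔭 h𝔭 h𝔭0 ε L hε
  exact ⟨C, hC, fun Γ hΓ 𝓕 h𝓕 k N σ ν τ f hf hNν hτ hli =>
    h Γ hΓ 𝓕 h𝓕.isFundamentalDomain k N σ ν (fun i => (τ i : ℂ)) f (fun i => (hf i).1)
      (fun i => (hf i).2.1) (fun i => (hf i).2.2.1) (fun i => (hf i).2.2.2.1)
      (fun i => (hf i).2.2.2.2.isHecke) (fun i => ⟨Complex.ofReal_im _, (hτ i).1, (hτ i).2⟩)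
      (fun i w => (hNν i w).1) (fun i w => (hNν i w).2) hli⟩

end Pool.Agent.T2h77V.Kept.DensityAllWeights
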