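import Pool.Agent.T2h77.FD
import Pool.Agent.T2h77.Geo5
import Pool.Agent.T2h77.Cnt4
import Pool.Agent.T2h77.Red
import Pool.Agent.T2h77.Vol

/-!
# The density theorem for the congruence subgroups of `SL₂(𝓞 K)`, `K` a number field

Let `K` be a number field, `v` an infinite place. Let `Γ` run over all congruence subgroups of
`SL₂(𝓞 K)`, of index `n`, and let `f_i` be linearly independent square integrable automorphic functions for
`Γ` on `SL₂(K ⊗ ℝ)`, which are spherical at all infinite places, with parameters `ν_{i, w}`, bounded at the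
places `w ≠ v`, and real and at least `ε` at `v` (so that the local component at `v` is not tempered). Then
`∑ n ^ (2 ν_{i, v}) ≤ C n ^ (1 + ε)`. In particular, the number of the `f_i` with `ν_{i, v} ≥ σ` is at most
`C n ^ (1 - 2 σ + ε)`.
-/

set_option autoImplicit false

open NumberField MeasureTheory
open scoped MatrixGroups

namespace Pool.Agent.T2h77V.Kept.DensityNumberField

open Pool.Agent.T2h77

theorem result (K : Type) [Field K] [NumberField K] (v : InfinitePlace K) (ε L : ℝ) (hε : 0 < ε) :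
    ∃ C : ℝ, 0 < C ∧ ∀ Γ : Subgroup SL(2, 𝓞 K), IsCongr Γ → ∀ 𝓕 : Set (GG K), IsFD Γ 𝓕 →
      ∀ (k : ℕ) (ν : Fin k → InfinitePlace K → ℂ) (f : Fin k → GG K → ℂ),
        (∀ i, IsAutomorphic Γ (ν i) (f i) ∧ IsL2 𝓕 (f i) ∧ InRange v ε L (ν i)) →
        LinearIndependent ℂ f →
        ∑ i, (Γ.index : ℝ) ^ (2 * (ν i v).re) ≤ C * (Γ.index : ℝ) ^ (1 + ε) := by
  obtain ⟨C, hC, h⟩ := density_of unimod vol xi red count K v ε L hε
  exact ⟨C, hC, fun Γ hΓ 𝓕 h𝓕 k ν f hf hli =>
    h Γ hΓ 𝓕 h𝓕.isFundamentalDomain k ν f (fun i => (hf i).1) (fun i => (hf i).2.1) (fun i => (hf i).2.2.1)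
      (fun i => (hf i).2.2.2) hli⟩

end Pool.Agent.T2h77V.Kept.DensityNumberField
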